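import Mathlib
import Pool.Agent.X317.Pow.Ideal

/-!
# MP_8a71fe_al: monomial ideals whose powers become field-dependent exactly from a given power

* `monIdeal k G` is the ideal of `k[x_0, …, x_(n-1)]` generated by the monomials with the exponents in the
  finite set `G`.
* `gbetti J i j` is the graded Betti number `β_{i,j}(J) = dim_k Tor_i(J, k)_j` of an ideal `J` of
  `k[x_0, …, x_(n-1)]`, the dimension of the part of internal degree `j` of the Koszul homology of degree
  `i` of the variables with coefficients in `J`.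
* `DependOnField I`: there are two fields `k`, `k'` and `i`, `j` with `β_{i,j}(I_k) ≠ β_{i,j}(I_{k'})`.

**Theorem.** For every `h ≥ 1` there is a monomial ideal `I` (in eight variables) such that the Betti
numbers of `I ^ ℓ` do not depend on the field for `1 ≤ ℓ < h` and depend on the field for all `ℓ ≥ h`.

The ideal: let `q_0, …, q_9` be the ten cubic generators of the Stanley-Reisner ideal `Q` of the real
projective plane with six vertices, in `y_0, …, y_5`; `B = 8 (h + 1) ^ 2`, `g_0 = 0`, `g_t = B ^ t` for
`t = 1, …, 9`, `v_t = B ^ 10 + 3 - (h - 1) g_t`, `d = B ^ 10 + 5`. Then `I` is generated by the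
`a ^ s b ^ (d - s)`, `s` one of the `g_t`, `v_t ± 1`, `v_t ± 2`, and by the `q_t a ^ (v_t) b ^ (d - v_t)`.
-/

set_option autoImplicit false
set_option linter.all false

open Pool.Agent.X317.Cone Pool.Agent.X317.Kos

namespace Pool.Agent.Results.MP_8a71fe_al.FromPowerH

/-- The Betti numbers of the ideals `I k` depend on the field `k`. -/
def DependOnField {n : ℕ} (I : ∀ (k : Type) [Field k], Ideal (MvPolynomial (Fin n) k)) : Prop :=
  ∃ (k k' : Type) (_ : Field k) (_ : Field k') (i j : ℕ), gbetti (I k) i j ≠ gbetti (I k') i j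

theorem result (h : ℕ) (hh : 1 ≤ h) : ∃ G : Finset (Fin 8 →₀ ℕ),
    (∀ l, 1 ≤ l → l < h → ¬ DependOnField (fun k _ => monIdeal k G ^ l)) ∧
      ∀ l, h ≤ l → DependOnField (fun k _ => monIdeal k G ^ l) := by
  refine ⟨Pool.Agent.X317.Pow.gens h, fun l _ hl => ?_, fun l hl => ?_⟩
  · rintro ⟨k, k', _, _, i, j, hne⟩
    apply hne
    show gbetti (monIdeal k _ ^ l) i j = gbetti (monIdeal k' _ ^ l) i j
    rw [Pool.Agent.X317.Pow.independent hh hl k, Pool.Agent.X317.Pow.independent hh hl k']
  · obtain ⟨i, j, hne⟩ := Pool.Agent.X317.Pow.dependent hh hl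
    exact ⟨ZMod 2, ℚ, inferInstance, inferInstance, i, j, hne⟩

end Pool.Agent.Results.MP_8a71fe_al.FromPowerH
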